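import Pool.Agent.Lib.MP_0d8a84_pr.FarMain

set_option autoImplicit false

open MeasureTheory Filter Topology

namespace Pool.Agent.Results.MP_0d8a84_pr.CubicConstant

open Pool.Agent.Lib.MP_0d8a84_pr in
/-- Polluted bootstrap percolation on `ℤ³` with threshold three: states `0`, `1`, `2` mean
occupied, closed, empty, and `A ω t` is the set of occupied sites at time `t`. If `q ≥ C p ^ 3`,
the probability that the origin is eventually occupied is at most `C p (log (1 / p)) ^ 3`. -/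
theorem result : ∃ C : ℝ, 0 < C ∧ ∀ p q : ℝ, 0 < p → p ≤ 1 / 2 → C * p ^ 3 ≤ q →
    ∀ (μ : Measure (Fin 3)) [IsProbabilityMeasure μ],
    μ {0} = ENNReal.ofReal p → μ {1} = ENNReal.ofReal q →
    ∀ A : (ℤ × ℤ × ℤ → Fin 3) → ℕ → Set (ℤ × ℤ × ℤ), (∀ ω, A ω 0 = {x | ω x = 0}) →
    (∀ ω t, A ω (t + 1) = A ω t ∪ {x | ω x = 2 ∧
      3 ≤ {y ∈ A ω t | |x.1 - y.1| + |x.2.1 - y.2.1| + |x.2.2 - y.2.2| = 1}.ncard}) →
    Measure.infinitePi (fun _ : ℤ × ℤ × ℤ => μ) {ω | ∃ t, (0 : ℤ × ℤ × ℤ) ∈ A ω t} ≤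
      ENNReal.ofReal (C * p * Real.log (1 / p) ^ 3) := by
  classical
  obtain ⟨C, hC, h⟩ := density_le
  refine ⟨C, hC, fun p q hp0 hp1 hpq μ _ h0 h1 A hA0 hA => ?_⟩
  have key : ∀ ω t, A ω t ⊆ Occ ω t := by
    intro ω t
    induction t with
    | zero => rw [hA0]; exact fun x hx => hx
    | succ t ih =>
      rw [hA]
      rintro x (hx | ⟨h2, h3⟩)
      · exact Or.inl (ih hx)
      · refine Or.inr ⟨by rw [h2]; decide, h3.trans ?_⟩
        rw [← Set.ncard_coe_finset]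
        refine Set.ncard_le_ncard (fun y hy => ?_) (Finset.finite_toSet _)
        rw [Finset.coe_filter]
        exact ⟨mem_nb.2 hy.2, ih hy.1⟩
  have hq0 : 0 ≤ q := le_trans (by positivity) hpq
  have r0 : μ.real {0} = p := by rw [Measure.real, h0, ENNReal.toReal_ofReal hp0.le]
  have r1 : μ.real {1} = q := by rw [Measure.real, h1, ENNReal.toReal_ofReal hq0]
  have := h μ (by rwa [r0]) (by rwa [r0]) (by rwa [r0, r1])
  rw [r0] at this
  refine le_trans (measure_mono ?_) this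
  rintro ω ⟨t, ht⟩
  exact ⟨t, key ω t ht⟩

/-- The statement of Q1. -/
theorem tendsto_zero (α : ℝ) (hα : α < 3) (p q : ℕ → ℝ) (hp0 : ∀ n, 0 < p n)
    (hq0 : ∀ n, 0 < q n) (hp : Tendsto p atTop (𝓝 0))
    (hpq : Tendsto (fun n => Real.log (q n) / Real.log (p n)) atTop (𝓝 α))
    (μ : ℕ → Measure (Fin 3)) [∀ n, IsProbabilityMeasure (μ n)]
    (h0 : ∀ n, μ n {0} = ENNReal.ofReal (p n)) (h1 : ∀ n, μ n {1} = ENNReal.ofReal (q n))
    (A : (ℤ × ℤ × ℤ → Fin 3) → ℕ → Set (ℤ × ℤ × ℤ))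
    (hA0 : ∀ ω, A ω 0 = {x | ω x = 0})
    (hA : ∀ ω t, A ω (t + 1) = A ω t ∪ {x | ω x = 2 ∧
      3 ≤ {y ∈ A ω t | |x.1 - y.1| + |x.2.1 - y.2.1| + |x.2.2 - y.2.2| = 1}.ncard}) :
    Tendsto (fun n => Measure.infinitePi (fun _ : ℤ × ℤ × ℤ => μ n)
      {ω | ∃ t, (0 : ℤ × ℤ × ℤ) ∈ A ω t}) atTop (𝓝 0) := by
  obtain ⟨C, hC, h⟩ := result
  have hr := Pool.Agent.Lib.MP_0d8a84_pr.tendsto_ratio α hα p q hp0 hq0 hp hpq
  have hinv : Tendsto (fun n => 1 / p n) atTop atTop := by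
    simp only [one_div]
    exact tendsto_inv_nhdsGT_zero.comp
      (tendsto_nhdsWithin_iff.2 ⟨hp, Eventually.of_forall hp0⟩)
  have h2 := ((Real.tendsto_pow_log_div_mul_add_atTop 1 0 3 one_ne_zero).comp hinv).const_mul C
  rw [mul_zero] at h2
  have h3 : Tendsto (fun n => ENNReal.ofReal (C * p n * Real.log (1 / p n) ^ 3)) atTop (𝓝 0) := by
    rw [← ENNReal.ofReal_zero]
    refine ENNReal.tendsto_ofReal (h2.congr fun n => ?_)
    have := (hp0 n).ne'
    simp only [Function.comp]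
    field_simp
    ring
  refine tendsto_of_tendsto_of_tendsto_of_le_of_le' tendsto_const_nhds h3
    (Eventually.of_forall fun _ => zero_le) ?_
  filter_upwards [hp.eventually (ge_mem_nhds (show (0 : ℝ) < 1 / 2 by norm_num)),
    hr.eventually (ge_mem_nhds (show (0 : ℝ) < 1 / C by positivity))] with n hn1 hn2
  refine h (p n) (q n) (hp0 n) hn1 ?_ (μ n) (h0 n) (h1 n) A hA0 hA
  rw [div_le_div_iff₀ (hq0 n) hC] at hn2
  linarith

end Pool.Agent.Results.MP_0d8a84_pr.CubicConstant
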